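import Pool.Agent.Lib_helper60.AVM.Defs

/-!
# Project AVM, block CT: from tuples of primes to numbers
-/

set_option autoImplicit false

namespace Pool.Agent.AVM

open Finset Filter Topology Pool.Agent.PQ Pool.Agent.GL

theorem ct_mem_GT (k X : ℕ) (u : Fin (k + 1) → ℕ) :
    u ∈ GT k X ↔ (∀ i, (u i).Prime) ∧ (∏ i, u i) ≤ X ∧ Good k u := by
  classical
  simp only [GT, Tup, Finset.mem_filter, Fintype.mem_piFinset, prm, Finset.mem_Icc]
  constructor
  · rintro ⟨⟨h1, h2⟩, h3⟩
    exact ⟨fun i => (h1 i).2, h2, h3⟩
  · rintro ⟨h1, h2, h3⟩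
    refine ⟨⟨fun i => ⟨⟨(h1 i).one_lt.le, ?_⟩, h1 i⟩, h2⟩, h3⟩
    refine le_trans ?_ h2
    exact Nat.le_of_dvd (Finset.prod_pos fun j _ => (h1 j).pos) (Finset.dvd_prod_of_mem _ (Finset.mem_univ i))

theorem ct_prod (k : ℕ) (u : Fin (k + 1) → ℕ) : ∏ i, u i = (∏ i : Fin k, u i.castSucc) * qq k u := by
  rw [Fin.prod_univ_castSucc]; rfl

open Classical in
theorem ct_maps (k X : ℕ) (u : Fin (k + 1) → ℕ) (hu : u ∈ GT k X) : (∏ i, u i) ∈ SS k X := by
  rw [ct_mem_GT] at hu
  obtain ⟨hp, hX, hinj, h1, h3, h8⟩ := hu
  have hpos : 0 < ∏ i, u i := Finset.prod_pos fun j _ => (hp j).pos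
  have hpf : (∏ i, u i).primeFactors = univ.image u := by
    ext p
    rw [Nat.mem_primeFactors]
    constructor
    · rintro ⟨hpp, hd, _⟩
      obtain ⟨i, _, hi⟩ := (Prime.dvd_finsetProd_iff hpp.prime _).1 hd
      rw [Finset.mem_image]
      exact ⟨i, mem_univ i, ((Nat.prime_dvd_prime_iff_eq hpp (hp i)).1 hi).symm⟩
    · intro h
      obtain ⟨i, _, rfl⟩ := Finset.mem_image.1 h
      exact ⟨hp i, Finset.dvd_prod_of_mem _ (mem_univ i), hpos.ne'⟩
  have himg : ∀ (Q : ℕ → Prop) [DecidablePred Q], ((∏ i, u i).primeFactors.filter Q).card =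
      (univ.filter (fun i => Q (u i))).card := by
    intro Q _
    rw [hpf, Finset.filter_image, Finset.card_image_of_injective _ hinj]
  have hsq : Squarefree (∏ i, u i) := by
    refine Finset.squarefree_prod_of_pairwise_isCoprime ?_ (fun i _ => (hp i).squarefree)
    intro i _ j _ hij
    show IsRelPrime (u i) (u j)
    rw [← Nat.coprime_iff_isRelPrime]
    exact (Nat.coprime_primes (hp i) (hp j)).2 (fun h => hij (hinj h))
  simp only [SS, Finset.mem_filter, Finset.mem_Icc]
  refine ⟨⟨hpos, hX⟩, h8, hsq, ?_, ?_⟩
  · rw [himg (fun p => p % 4 = 1)]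
    have : (univ.filter (fun i : Fin (k + 1) => u i % 4 = 1)) = univ.image (Fin.castSucc : Fin k → Fin (k + 1)) := by
      ext i
      simp only [Finset.mem_filter, Finset.mem_univ, true_and, Finset.mem_image]
      constructor
      · intro h
        refine Fin.lastCases ?_ ?_ i (motive := fun i => u i % 4 = 1 → ∃ a : Fin k, a.castSucc = i) h
        · intro h'
          have : qq k u % 4 = 1 := h'
          omega
        · intro j _
          exact ⟨j, rfl⟩
      · rintro ⟨j, rfl⟩
        exact h1 j
    rw [this, Finset.card_image_of_injective _ (Fin.castSucc_injective k), Finset.card_univ, Fintype.card_fin]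
  · rw [himg (fun p => p % 4 = 3)]
    have : (univ.filter (fun i : Fin (k + 1) => u i % 4 = 3)) = {Fin.last k} := by
      ext i
      simp only [Finset.mem_filter, Finset.mem_univ, true_and, Finset.mem_singleton]
      constructor
      · intro h
        refine Fin.lastCases ?_ ?_ i (motive := fun i => u i % 4 = 3 → i = Fin.last k) h
        · intro _; rfl
        · intro j hj
          have := h1 j
          omega
      · rintro rfl
        exact h3
    rw [this, Finset.card_singleton]

open Classical in
theorem ct_fiber (k X n : ℕ) (hn : n ∈ SS k X) :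
    ((GT k X).filter (fun u => ∏ i, u i = n)).card = k.factorial := by
  simp only [SS, Finset.mem_filter, Finset.mem_Icc] at hn
  obtain ⟨⟨hn1, hnX⟩, h8, hsq, hA, hB⟩ := hn
  set A := n.primeFactors.filter (fun p => p % 4 = 1) with hAdef
  obtain ⟨q, hq⟩ := Finset.card_eq_one.1 hB
  have hqm : q ∈ n.primeFactors.filter (fun p => p % 4 = 3) := by rw [hq]; simp
  rw [Finset.mem_filter] at hqm
  have hcardA : Fintype.card A = k := by rw [Fintype.card_coe, hA]
  have hprodn : (∏ p ∈ A, p) * q = n := by
    have h := Nat.prod_primeFactors_of_squarefree hsq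
    rw [← Finset.prod_filter_mul_prod_filter_not n.primeFactors (fun p => p % 4 = 1)] at h
    have h2 : n.primeFactors.filter (fun p => ¬ p % 4 = 1) = n.primeFactors.filter (fun p => p % 4 = 3) := by
      apply Finset.filter_congr
      intro p hp
      have hpp := Nat.prime_of_mem_primeFactors hp
      have hd := Nat.dvd_of_mem_primeFactors hp
      have hodd : p % 2 = 1 := by
        rcases hpp.eq_two_or_odd with h2 | h2
        · subst h2
          omega
        · exact h2
      omega
    rw [h2, hq, Finset.prod_singleton] at h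
    exact h
  have key : (univ : Finset (Fin k ≃ A)).card = ((GT k X).filter (fun u => ∏ i, u i = n)).card := by
    refine Finset.card_bij (fun e _ => (Fin.snoc (fun i => ((e i : A) : ℕ)) q : Fin (k + 1) → ℕ)) ?_ ?_ ?_
    · intro e _
      have hcs : ∀ i : Fin k, (Fin.snoc (fun i => ((e i : A) : ℕ)) q : Fin (k + 1) → ℕ) i.castSucc = ((e i : A) : ℕ) :=
        fun i => Fin.snoc_castSucc (α := fun _ => ℕ) _ _ i
      have hla : (Fin.snoc (fun i => ((e i : A) : ℕ)) q : Fin (k + 1) → ℕ) (Fin.last k) = q :=
        Fin.snoc_last (α := fun _ => ℕ) _ _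
      have hpr : ∏ i, (Fin.snoc (fun i => ((e i : A) : ℕ)) q : Fin (k + 1) → ℕ) i = n := by
        rw [Fin.prod_univ_castSucc, hla]
        rw [Finset.prod_congr rfl (fun i _ => hcs i)]
        rw [← hprodn]
        congr 1
        rw [Equiv.prod_comp e (fun a : A => (a : ℕ))]
        exact Finset.prod_coe_sort A (fun p => p)
      have hmA : ∀ i : Fin k, ((e i : A) : ℕ) ∈ A := fun i => (e i).2
      rw [Finset.mem_filter, ct_mem_GT]
      refine ⟨⟨?_, ?_, ?_, ?_, ?_, ?_⟩, hpr⟩
      · intro i
        refine Fin.lastCases ?_ ?_ i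
        · rw [hla]; exact Nat.prime_of_mem_primeFactors hqm.1
        · intro j; rw [hcs]
          exact Nat.prime_of_mem_primeFactors (Finset.mem_filter.1 (hmA j)).1
      · rw [hpr]; exact hnX
      · intro i j
        refine Fin.lastCases ?_ ?_ i
        · refine Fin.lastCases ?_ ?_ j
          · intro _; rfl
          · intro j' h
            rw [hla, hcs] at h
            have h1 := (Finset.mem_filter.1 (hmA j')).2
            have h3 := hqm.2
            omega
        · intro i'
          refine Fin.lastCases ?_ ?_ j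
          · intro h
            rw [hla, hcs] at h
            have h1 := (Finset.mem_filter.1 (hmA i')).2
            have h3 := hqm.2
            omega
          · intro j' h
            rw [hcs, hcs] at h
            rw [e.injective (Subtype.ext h)]
      · intro i
        rw [hcs]
        exact (Finset.mem_filter.1 (hmA i)).2
      · show (Fin.snoc (fun i => ((e i : A) : ℕ)) q : Fin (k + 1) → ℕ) (Fin.last k) % 4 = 3
        rw [hla]; exact hqm.2
      · rw [hpr]; exact h8
    · intro e _ e' _ h
      apply Equiv.ext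
      intro i
      apply Subtype.ext
      have := congrFun h i.castSucc
      simpa [Fin.snoc_castSucc] using this
    · intro u hu
      rw [Finset.mem_filter, ct_mem_GT] at hu
      obtain ⟨⟨hp, hX, hinj, h1, h3, _⟩, hpr⟩ := hu
      have hmem : ∀ i, u i ∈ n.primeFactors := by
        intro i
        rw [Nat.mem_primeFactors]
        refine ⟨hp i, ?_, by omega⟩
        rw [← hpr]
        exact Finset.dvd_prod_of_mem _ (mem_univ i)
      have hmA : ∀ i : Fin k, u i.castSucc ∈ A := fun i => Finset.mem_filter.2 ⟨hmem _, h1 i⟩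
      have hbij : Function.Bijective (fun i : Fin k => (⟨u i.castSucc, hmA i⟩ : A)) := by
        rw [Fintype.bijective_iff_injective_and_card]
        refine ⟨fun i j h => ?_, by rw [hcardA, Fintype.card_fin]⟩
        exact Fin.castSucc_injective k (hinj (congrArg Subtype.val h))
      have hlast : u (Fin.last k) = q := by
        have : u (Fin.last k) ∈ n.primeFactors.filter (fun p => p % 4 = 3) := Finset.mem_filter.2 ⟨hmem _, h3⟩
        rw [hq, Finset.mem_singleton] at this
        exact this
      refine ⟨Equiv.ofBijective _ hbij, mem_univ _, ?_⟩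
      funext i
      refine Fin.lastCases ?_ ?_ i
      · rw [Fin.snoc_last, hlast]
      · intro j
        rw [Fin.snoc_castSucc]
        rfl
  rw [← key, Finset.card_univ]
  have e0 : Fin k ≃ A := (Fintype.equivFinOfCardEq hcardA).symm
  rw [Fintype.card_equiv e0, Fintype.card_fin]

open Classical in
theorem ct (k X : ℕ) (P : ℕ → Prop) :
    k.factorial * ((SS k X).filter P).card = ((GT k X).filter (fun u => P (∏ i, u i))).card := by
  rw [Finset.card_eq_sum_card_fiberwise (f := fun u : Fin (k + 1) → ℕ => ∏ i, u i) (t := (SS k X).filter P)]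
  · rw [mul_comm, ← smul_eq_mul, ← Finset.sum_const]
    apply Finset.sum_congr rfl
    intro n hn
    rw [Finset.mem_filter] at hn
    rw [← ct_fiber k X n hn.1, Finset.filter_filter]
    congr 1
    apply Finset.filter_congr
    intro u _
    constructor
    · intro h
      exact ⟨by rw [h]; exact hn.2, h⟩
    · intro h
      exact h.2
  · intro u hu
    have hu' := Finset.mem_filter.1 (Finset.mem_coe.1 hu)
    exact Finset.mem_coe.2 (Finset.mem_filter.2 ⟨ct_maps k X u hu'.1, hu'.2⟩)

end Pool.Agent.AVM
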